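import Mathlib

/-!
Project EN (helper8), package INJ: the linear algebra.
-/

set_option autoImplicit false

namespace Pool.Agent.Helper85.EN

section core

variable {K V W : Type*} [Field K] [CharZero K] [AddCommGroup V] [Module K V] [AddCommGroup W]
  [Module K W] {d n : ℕ} (b : Module.Basis (Fin d) K V)

/-- matrix units -/
noncomputable def mu (c a : Fin d) : V →ₗ[K] V := (b.coord a).smulRight (b c)

theorem mu_apply (c a : Fin d) (x : V) : mu b c a x = b.coord a x • b c := rfl

theorem mu_basis (c a l : Fin d) : mu b c a (b l) = (if l = a then (1 : K) else 0) • b c := by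
  rw [mu_apply, Module.Basis.coord_apply, Module.Basis.repr_self, Finsupp.single_apply]

theorem coord_par (par : V →ₗ[K] V) (δ : Fin d → ℚ) (hb : ∀ i, par (b i) = (δ i : K) • b i)
    (a : Fin d) (x : V) : b.coord a (par x) = (δ a : K) * b.coord a x := by
  have h : (b.coord a) ∘ₗ par = (δ a : K) • b.coord a := by
    apply b.ext
    intro l
    rw [LinearMap.comp_apply, hb, map_smul, LinearMap.smul_apply]
    simp only [Module.Basis.coord_apply, Module.Basis.repr_self, Finsupp.single_apply, smul_eq_mul]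
    by_cases h : l = a
    · rw [h]
    · simp [h]
  exact LinearMap.congr_fun h x

theorem mu_even (par : V →ₗ[K] V) (δ : Fin d → ℚ) (hb : ∀ i, par (b i) = (δ i : K) • b i)
    (c a : Fin d) (h : δ a = δ c) (x : V) : par (mu b c a x) = mu b c a (par x) := by
  rw [mu_apply, mu_apply, map_smul, hb, coord_par b par δ hb, smul_smul, h]
  congr 1
  ring

theorem mu_X (X : V →ₗ[K] V) (c a : Fin d) :
    mu b c c ∘ₗ X ∘ₗ mu b a a = b.coord c (X (b a)) • mu b c a := by
  apply LinearMap.ext
  intro x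
  simp only [LinearMap.comp_apply, mu_apply, map_smul, LinearMap.smul_apply]
  rw [smul_smul, smul_smul, mul_comm]

theorem mu_mu (a c : Fin d) (h : a ≠ c) : mu b c c ∘ₗ mu b a a = 0 := by
  apply LinearMap.ext
  intro x
  simp [LinearMap.comp_apply, mu_apply, h]

theorem mu_idem (a : Fin d) : mu b a a ∘ₗ mu b a a = mu b a a := by
  apply LinearMap.ext
  intro x
  simp [LinearMap.comp_apply, mu_apply]

theorem mu_comm' (a c : Fin d) : mu b a c ∘ₗ mu b c a = mu b a a := by
  apply LinearMap.ext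
  intro x
  simp [LinearMap.comp_apply, mu_apply]

/-- the bracket -/
theorem bracket (wd : (Fin (n + 1) → V) → W)
    (hspan : ∀ f g : W →ₗ[K] W, (∀ w : Fin (n + 1) → Fin d,
      f (wd fun k => b (w k)) = g (wd fun k => b (w k))) → f = g)
    (Δ : (V →ₗ[K] V) →ₗ[K] (W →ₗ[K] W))
    (h1 : ∀ A v, Δ A (wd v) = ∑ k, wd (Function.update v k (A (v k)))) (A B : V →ₗ[K] V) :
    Δ (A ∘ₗ B - B ∘ₗ A) = Δ A ∘ₗ Δ B - Δ B ∘ₗ Δ A := by
  have key : ∀ (A B : V →ₗ[K] V) (v : Fin (n + 1) → V), Δ A (Δ B (wd v)) =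
      Δ (A ∘ₗ B) (wd v) + ∑ k, ∑ j ∈ Finset.univ.erase k,
        wd (Function.update (Function.update v k (B (v k))) j (A (v j))) := by
    intro A B v
    rw [h1 B, map_sum, h1 (A ∘ₗ B), ← Finset.sum_add_distrib]
    refine Finset.sum_congr rfl fun k _ => ?_
    rw [h1 A, ← Finset.add_sum_erase Finset.univ _ (Finset.mem_univ k)]
    congr 1
    · rw [Function.update_self, Function.update_idem]
      rfl
    · refine Finset.sum_congr rfl fun j hj => ?_
      rw [Function.update_of_ne (Finset.ne_of_mem_erase hj)]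
  have hswap : ∀ (A B : V →ₗ[K] V) (v : Fin (n + 1) → V),
      ∑ k, ∑ j ∈ Finset.univ.erase k,
        wd (Function.update (Function.update v k (B (v k))) j (A (v j))) =
      ∑ k, ∑ j ∈ Finset.univ.erase k,
        wd (Function.update (Function.update v k (A (v k))) j (B (v j))) := by
    intro A B v
    have e1 : ∀ (f : Fin (n + 1) → Fin (n + 1) → W), ∑ k, ∑ j ∈ Finset.univ.erase k, f k j =
        ∑ k, ∑ j, if j ≠ k then f k j else 0 := by
      intro f
      refine Finset.sum_congr rfl fun k _ => ?_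
      rw [← Finset.sum_filter]
      congr 1
      ext j
      simp
    rw [e1, e1, Finset.sum_comm]
    refine Finset.sum_congr rfl fun j _ => Finset.sum_congr rfl fun k _ => ?_
    by_cases h : j = k
    · rw [if_neg (by simpa using h), if_neg (by simpa using h.symm)]
    · rw [if_pos h, if_pos (Ne.symm h), Function.update_comm h]
  apply hspan
  intro w
  rw [map_sub, LinearMap.sub_apply, LinearMap.sub_apply, LinearMap.comp_apply,
    LinearMap.comp_apply, key A B, key B A, hswap A B]
  abel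

theorem diag (wd : (Fin (n + 1) → V) → W)
    (hsm : ∀ v k (c : K), wd (Function.update v k (c • v k)) = c • wd v)
    (Δ : (V →ₗ[K] V) →ₗ[K] (W →ₗ[K] W))
    (h1 : ∀ A v, Δ A (wd v) = ∑ k, wd (Function.update v k (A (v k)))) (A : V →ₗ[K] V)
    (x : Fin d → K) (hA : ∀ l, A (b l) = x l • b l) (w : Fin (n + 1) → Fin d) :
    Δ A (wd fun k => b (w k)) = (∑ k, x (w k)) • wd fun k => b (w k) := by
  rw [h1, Finset.sum_smul]
  refine Finset.sum_congr rfl fun k _ => ?_
  rw [hA]
  exact hsm (fun k => b (w k)) k (x (w k))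

theorem sum_cnt (x : Fin d → K) (w : Fin (n + 1) → Fin d) :
    ∑ k, x (w k) = ∑ l, ((Finset.univ.filter fun k => w k = l).card : K) * x l := by
  rw [← Finset.sum_fiberwise Finset.univ w]
  refine Finset.sum_congr rfl fun l _ => ?_
  rw [Finset.sum_congr rfl (g := fun _ => x l)
    (fun k hk => by rw [(Finset.mem_filter.1 hk).2]), Finset.sum_const, nsmul_eq_mul]

/-- The linear algebra of INJ. -/
theorem core (wd : (Fin (n + 1) → V) → W)
    (hspan : ∀ f g : W →ₗ[K] W, (∀ w : Fin (n + 1) → Fin d,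
      f (wd fun k => b (w k)) = g (wd fun k => b (w k))) → f = g)
    (hsm : ∀ v k (c : K), wd (Function.update v k (c • v k)) = c • wd v)
    (par : V →ₗ[K] V) (δ : Fin d → ℚ) (hb : ∀ i, par (b i) = (δ i : K) • b i)
    (Δ : (V →ₗ[K] V) →ₗ[K] (W →ₗ[K] W))
    (h1 : ∀ A v, Δ A (wd v) = ∑ k, wd (Function.update v k (A (v k))))
    (E : W →ₗ[K] W) (h2 : ∀ A : V →ₗ[K] V, (∀ x, par (A x) = A (par x)) →
      ∀ z, Δ A (E z) = E (Δ A z))
    (hE : E ≠ 0)
    (s1 : ∀ a c, a ≠ c → δ a = δ c → ∃ w : Fin (n + 1) → Fin d,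
      E (wd fun k => b (w k)) ≠ 0 ∧ (Finset.univ.filter fun k => w k = a).card ≠
        (Finset.univ.filter fun k => w k = c).card)
    (s2 : ∀ a c, a ≠ c → ∃ (w w' : Fin (n + 1) → Fin d) (m : ℤ), m ≠ 0 ∧
      E (wd fun k => b (w k)) ≠ 0 ∧ E (wd fun k => b (w' k)) ≠ 0 ∧
      ∀ l, ((Finset.univ.filter fun k => w k = l).card : ℤ) -
        (Finset.univ.filter fun k => w' k = l).card =
          m * ((if l = a then 1 else 0) - if l = c then 1 else 0))
    (X : V →ₗ[K] V) (hX : ∀ x, par (X x) = X (par x)) (h0 : ∀ z, Δ X (E z) = 0) : X = 0 := by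
  -- the Lie ideal
  have hJ : ∀ Y A : V →ₗ[K] V, (∀ x, par (Y x) = Y (par x)) → (∀ x, par (A x) = A (par x)) →
      (∀ z, Δ Y (E z) = 0) → (∀ x, par ((A ∘ₗ Y - Y ∘ₗ A) x) = (A ∘ₗ Y - Y ∘ₗ A) (par x)) ∧
        ∀ z, Δ (A ∘ₗ Y - Y ∘ₗ A) (E z) = 0 := by
    intro Y A hY hA h
    refine ⟨fun x => ?_, fun z => ?_⟩
    · simp only [LinearMap.sub_apply, LinearMap.comp_apply, map_sub, hY, hA]
    · rw [bracket b wd hspan Δ h1, LinearMap.sub_apply, LinearMap.comp_apply,
        LinearMap.comp_apply, h, map_zero, h2 A hA, h, sub_zero]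
  have hp : ∀ a x, par (mu b a a x) = mu b a a (par x) := fun a x =>
    mu_even b par δ hb a a rfl x
  -- off-diagonal entries
  have hoff : ∀ a c, a ≠ c → b.coord c (X (b a)) = 0 := by
    intro a c hac
    by_contra hne
    have hδ : δ a = δ c := by
      have e1 := coord_par b par δ hb c (X (b a))
      rw [hX, hb, map_smul, map_smul, smul_eq_mul] at e1
      have e2 := mul_right_cancel₀ hne e1
      exact_mod_cast e2
    obtain ⟨p1, q1⟩ := hJ X (mu b c c) hX (hp c) h0
    obtain ⟨p2, q2⟩ := hJ _ (mu b a a) p1 (hp a) q1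
    obtain ⟨p3, q3⟩ := hJ _ (mu b c c) p2 (hp c) q2
    set P := mu b a a with hP
    set Q := mu b c c with hQ
    have hPQ : P ∘ₗ Q = 0 := mu_mu b c a (Ne.symm hac)
    have hQP : Q ∘ₗ P = 0 := mu_mu b a c hac
    have hPP : P ∘ₗ P = P := mu_idem b a
    have hQQ : Q ∘ₗ Q = Q := mu_idem b c
    have hPQ' : ∀ y, P (Q y) = 0 := fun y => LinearMap.congr_fun hPQ y
    have hQP' : ∀ y, Q (P y) = 0 := fun y => LinearMap.congr_fun hQP y
    have hQQ' : ∀ y, Q (Q y) = Q y := fun y => LinearMap.congr_fun hQQ y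
    have e2 : P ∘ₗ (Q ∘ₗ X - X ∘ₗ Q) - (Q ∘ₗ X - X ∘ₗ Q) ∘ₗ P = -(P ∘ₗ X ∘ₗ Q + Q ∘ₗ X ∘ₗ P) := by
      apply LinearMap.ext
      intro y
      simp only [LinearMap.sub_apply, LinearMap.comp_apply, map_sub, LinearMap.neg_apply,
        LinearMap.add_apply, hPQ', hQP', map_zero]
      abel
    have e3 : Q ∘ₗ (-(P ∘ₗ X ∘ₗ Q + Q ∘ₗ X ∘ₗ P)) - (-(P ∘ₗ X ∘ₗ Q + Q ∘ₗ X ∘ₗ P)) ∘ₗ Q =
        P ∘ₗ X ∘ₗ Q - Q ∘ₗ X ∘ₗ P := by
      apply LinearMap.ext
      intro y
      simp only [LinearMap.sub_apply, LinearMap.comp_apply, map_neg, map_add, LinearMap.neg_apply,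
        LinearMap.add_apply, hPQ', hQP', hQQ', map_zero]
      abel
    rw [e2] at q2 q3
    rw [e3] at q3
    have q4 : ∀ z, Δ (mu b c a) (E z) = 0 := by
      intro z
      have h3 := q2 z
      have h4 := q3 z
      have e5 : Q ∘ₗ X ∘ₗ P = b.coord c (X (b a)) • mu b c a := mu_X b X c a
      have h5 : Δ ((2 : K) • (Q ∘ₗ X ∘ₗ P)) (E z) = 0 := by
        have e6 : (2 : K) • (Q ∘ₗ X ∘ₗ P) =
            -(-(P ∘ₗ X ∘ₗ Q + Q ∘ₗ X ∘ₗ P)) - (P ∘ₗ X ∘ₗ Q - Q ∘ₗ X ∘ₗ P) := by
          rw [two_smul]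
          abel
        rw [e6, map_sub, map_neg, LinearMap.sub_apply, LinearMap.neg_apply, h3, h4]
        simp
      rw [e5, map_smul, map_smul, LinearMap.smul_apply, LinearMap.smul_apply] at h5
      rcases smul_eq_zero.1 h5 with h6 | h6
      · exact absurd h6 two_ne_zero
      · exact (smul_eq_zero.1 h6).resolve_left hne
    obtain ⟨-, q5⟩ := hJ (mu b c a) (mu b a c) (mu_even b par δ hb c a hδ)
      (mu_even b par δ hb a c hδ.symm) q4
    rw [mu_comm', mu_comm'] at q5
    obtain ⟨w, hw, hcnt⟩ := s1 a c hac hδ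
    have h7 := q5 (wd fun k => b (w k))
    have hev : ∀ x, par ((mu b a a - mu b c c) x) = (mu b a a - mu b c c) (par x) := by
      intro x
      simp only [LinearMap.sub_apply, map_sub, hp]
    rw [h2 _ hev, diag b wd hsm Δ h1 _ (fun l => (if l = a then 1 else 0) - if l = c then 1 else 0)
      (fun l => by
        rw [LinearMap.sub_apply, mu_basis, mu_basis, sub_smul]
        by_cases h8 : l = a
        · by_cases h9 : l = c
          · rw [if_pos h8, if_pos h9, ← h8, ← h9]
          · rw [if_pos h8, if_neg h9, ← h8]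
            simp
        · by_cases h9 : l = c
          · rw [if_neg h8, if_pos h9, ← h9]
            simp
          · rw [if_neg h8, if_neg h9]
            simp), map_smul] at h7
    rcases smul_eq_zero.1 h7 with h8 | h8
    · rw [Finset.sum_sub_distrib, Finset.sum_boole, Finset.sum_boole, sub_eq_zero] at h8
      exact hcnt (by exact_mod_cast h8)
    · exact hw h8
  -- the diagonal
  set x : Fin d → K := fun a => b.coord a (X (b a)) with hx
  have hdiag : ∀ a, X (b a) = x a • b a := by
    intro a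
    apply b.ext_elem
    intro c
    rw [map_smul, Finsupp.smul_apply, Module.Basis.repr_self, Finsupp.single_apply]
    by_cases h : a = c
    · subst h
      simp [hx]
    · have := hoff a c h
      rw [Module.Basis.coord_apply] at this
      rw [this, if_neg h, smul_zero]
  have hsum : ∀ w : Fin (n + 1) → Fin d, E (wd fun k => b (w k)) ≠ 0 → ∑ k, x (w k) = 0 := by
    intro w hw
    have h3 := h0 (wd fun k => b (w k))
    rw [h2 X hX, diag b wd hsm Δ h1 X x hdiag, map_smul] at h3
    exact (smul_eq_zero.1 h3).resolve_right hw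
  have heq : ∀ a c, x a = x c := by
    intro a c
    by_cases hac : a = c
    · rw [hac]
    · obtain ⟨w, w', m, hm, hw, hw', hcnt⟩ := s2 a c hac
      have h3 := hsum w hw
      have h4 := hsum w' hw'
      rw [sum_cnt] at h3 h4
      have h5 : ∑ l, (((Finset.univ.filter fun k => w k = l).card : K) -
          ((Finset.univ.filter fun k => w' k = l).card : K)) * x l = 0 := by
        simp only [sub_mul]
        rw [Finset.sum_sub_distrib, h3, h4, sub_zero]
      have h6 : ∀ l, (((Finset.univ.filter fun k => w k = l).card : K) -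
          ((Finset.univ.filter fun k => w' k = l).card : K)) =
            (m : K) * ((if l = a then 1 else 0) - if l = c then 1 else 0) := by
        intro l
        have := congrArg (fun z : ℤ => (z : K)) (hcnt l)
        push_cast at this
        exact this
      simp only [h6] at h5
      have h7 : ∑ l, (m : K) * ((if l = a then 1 else 0) - if l = c then 1 else 0) * x l =
          (m : K) * (x a - x c) := by
        simp only [mul_assoc]
        rw [← Finset.mul_sum]
        congr 1
        simp only [sub_mul, ite_mul, one_mul, zero_mul]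
        rw [Finset.sum_sub_distrib]
        simp
      rw [h7] at h5
      have hm' : (m : K) ≠ 0 := by exact_mod_cast hm
      exact sub_eq_zero.1 ((mul_eq_zero.1 h5).resolve_left hm')
  obtain ⟨w, hw⟩ : ∃ w : Fin (n + 1) → Fin d, E (wd fun k => b (w k)) ≠ 0 := by
    by_contra hcon
    push Not at hcon
    exact hE (hspan E 0 fun w => by rw [hcon w, LinearMap.zero_apply])
  have h3 := hsum w hw
  have h4 : ∀ a, x a = 0 := by
    intro a
    have h5 : ∑ k, x (w k) = (n + 1 : ℕ) • x a := by
      rw [Finset.sum_congr rfl fun k _ => heq (w k) a]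
      simp
    rw [h5, nsmul_eq_mul] at h3
    have h6 : ((n + 1 : ℕ) : K) ≠ 0 := by exact_mod_cast Nat.succ_ne_zero n
    exact (mul_eq_zero.1 h3).resolve_left h6
  apply b.ext
  intro a
  rw [hdiag, h4, zero_smul, LinearMap.zero_apply]

end core

end Pool.Agent.Helper85.EN
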