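import Pool.Agent.Helper8.NW.Main
import Pool.Agent.Helper96.SP.SUDIAG
import Pool.Agent.Helper85.EN.Core
import Pool.Agent.Helper18.EN.EDER
import Pool.Agent.Helper47.EN.SEPW

/-!
Project EN (helper8), package INJ (from EDER and SEPW as hypotheses).
-/

open CategoryTheory MonoidalCategory Limits BraidedCategory

universe u v w

namespace Pool.Agent.Helper85.EN

open Pool.Agent.TH90.AB Pool.Agent.TH90.Kim Pool.Agent.Helper96.Kim Pool.Agent.Helper96.SP
  Pool.Agent.Helper8.NW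

set_option linter.unusedSectionVars false

variable {𝒜 : Type u} [Category.{v} 𝒜] [MonoidalCategory 𝒜] [SymmetricCategory 𝒜]
  [Preadditive 𝒜] [MonoidalPreadditive 𝒜] [Linear ℚ 𝒜] [MonoidalLinear ℚ 𝒜]
  {K : Type w} [Field K] [CharZero K] {F : Realisation 𝒜 K}

theorem wd_smul {M : 𝒜} (n : ℕ) (v : Fin n → F.V M) (j : Fin n) (c : K) :
    wd F n (Function.update v j (c • v j)) = c • wd F n v := by
  induction n with
  | zero => exact j.elim0
  | succ n ih =>
    refine Fin.cases ?_ (fun j => ?_) j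
    · change F.ext _ _ = c • F.ext _ _
      rw [Function.update_self, _root_.map_smul]
      congr 3
    · change F.ext _ _ = c • F.ext _ _
      rw [Function.update_of_ne (Fin.succ_ne_zero j).symm]
      have h := ih (fun i => v i.succ) j
      have e : (fun i : Fin n => Function.update v j.succ (c • v j.succ) i.succ) =
          Function.update (fun i => v i.succ) j (c • v j.succ) := by
        funext i
        by_cases h : i = j
        · rw [h, Function.update_self, Function.update_self]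
        · rw [Function.update_of_ne h,
            Function.update_of_ne (fun h' => h (Fin.succ_injective _ h'))]
      rw [e, h, _root_.map_smul, LinearMap.smul_apply]

/-- INJ, from EDER and SEPW as hypotheses. -/
theorem inj_of [hdual : ∀ X : 𝒜, HasRightDual X] {M D : 𝒜} {φ : Fam M} {n : ℕ}
    {e : QS (n + 1)} (i : D ⟶ T M (n + 1)) (r : T M (n + 1) ⟶ D) (hir : i ≫ r = 𝟙 D)
    (hri : r ≫ i = rh φ (n + 1) e) (hg : Good F (n + 1) r) {d : ℕ}
    (b : Module.Basis (Fin d) K (F.V M)) (δ : Fin d → ℚ)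
    (hb : ∀ i, F.par M (b i) = (δ i : K) • b i)
    (Λ : (F.V M →ₗ[K] F.V M) →ₗ[K] (F.V (T M (n + 1)) →ₗ[K] F.V (T M (n + 1))))
    (hder : ∃ Δ : (F.V M →ₗ[K] F.V M) →ₗ[K] (F.V (T M (n + 1)) →ₗ[K] F.V (T M (n + 1))),
      (∀ A v, Δ A (wd F (n + 1) v) = ∑ k, wd F (n + 1) (Function.update v k (A (v k)))) ∧
      (∀ A, (∀ x, F.par M (A x) = A (F.par M x)) → ∀ (e : QS (n + 1)) z,
        Δ A (F.map (rh φ (n + 1) e) z) = F.map (rh φ (n + 1) e) (Δ A z)) ∧
      (∀ A, (∀ x, F.par M (A x) = A (F.par M x)) →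
        ∑ g : Equiv.Perm (Fin (n + 1)), F.map (φ (n + 1) g⁻¹ : T M (n + 1) ⟶ T M (n + 1)) ∘ₗ
          Λ A ∘ₗ F.map (φ (n + 1) g : T M (n + 1) ⟶ T M (n + 1)) =
            (n.factorial : K) • Δ A))
    (hsep : (∀ a c, a ≠ c → δ a = δ c → ∃ w : Fin (n + 1) → Fin d,
      F.map (rh φ (n + 1) e) (wd F (n + 1) fun k => b (w k)) ≠ 0 ∧ cnt w a ≠ cnt w c) ∧
    ∀ a c, a ≠ c → ∃ (w w' : Fin (n + 1) → Fin d) (m : ℤ), m ≠ 0 ∧
      F.map (rh φ (n + 1) e) (wd F (n + 1) fun k => b (w k)) ≠ 0 ∧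
      F.map (rh φ (n + 1) e) (wd F (n + 1) fun k => b (w' k)) ≠ 0 ∧
      ∀ l, (cnt w l : ℤ) - cnt w' l = m * ((if l = a then 1 else 0) - if l = c then 1 else 0))
    (X : F.V M →ₗ[K] F.V M) (hX : ∀ x, F.par M (X x) = X (F.par M x))
    (h0 : ∀ (g g' : Equiv.Perm (Fin (n + 1))) z,
      F.map (rh φ (n + 1) (e * MonoidAlgebra.single g 1)) (Λ X
        (F.map (rh φ (n + 1) (MonoidAlgebra.single g' 1 * e)) z)) = 0) : X = 0 := by
  obtain ⟨Δ, h1, h2, h3⟩ := hder
  obtain ⟨B, hB⟩ := wd_basis (F := F) b (n + 1)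
  have hEE : ∀ z, F.map (rh φ (n + 1) e) (F.map (rh φ (n + 1) e) z) =
      F.map (rh φ (n + 1) e) z := by
    intro z
    rw [← hri, F.map_comp, F.map_comp, ← F.map_comp i r, hir, F.map_id]
  have hsg : ∀ (g : Equiv.Perm (Fin (n + 1))) z,
      F.map (rh φ (n + 1) (MonoidAlgebra.single g 1)) z =
        F.map (φ (n + 1) g : T M (n + 1) ⟶ T M (n + 1)) z := by
    intro g z
    rw [UPX.rh_single, one_smul]
  have hkey : ∀ z, Δ X (F.map (rh φ (n + 1) e) z) = 0 := by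
    intro z
    have h4 := LinearMap.congr_fun (h3 X hX) (F.map (rh φ (n + 1) e) z)
    have h5 := congrArg (F.map (rh φ (n + 1) e)) h4
    rw [LinearMap.sum_apply, map_sum, Finset.sum_eq_zero] at h5
    · rw [LinearMap.smul_apply, _root_.map_smul] at h5
      have h6 := (smul_eq_zero.1 h5.symm).resolve_left
        (by exact_mod_cast n.factorial_ne_zero)
      rw [← h2 X hX, hEE] at h6
      exact h6
    · intro g _
      have h6 := h0 g⁻¹ g z
      rw [UPX.rh_mul, UPX.rh_mul, F.map_comp, F.map_comp, hsg, hsg] at h6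
      exact h6
  refine core b (wd F (n + 1)) ?_ (fun v k c => wd_smul (n + 1) v k c) (F.par M) δ hb Δ h1
    (F.map (rh φ (n + 1) e)) (fun A hA z => h2 A hA e z) ?_ hsep.1 hsep.2 X hX hkey
  · intro f g hfg
    apply B.ext
    intro w
    rw [hB]
    exact hfg w
  · intro hE
    obtain ⟨⟨z, hz⟩, -⟩ := hg
    apply hz
    have h4 : F.map (rh φ (n + 1) e) (F.map i z) = F.map i z := by
      rw [← hri, F.map_comp, ← F.map_comp i r, hir, F.map_id]
    rw [hE, LinearMap.zero_apply] at h4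
    have h5 : F.map r (F.map i z) = z := by
      rw [← F.map_comp, hir, F.map_id]
    rw [← h5, ← h4, map_zero]

/-- INJ. -/
theorem inj [hdual : ∀ X : 𝒜, HasRightDual X] {M D : 𝒜} {φ : Fam M} (hφ : PA φ) {n : ℕ}
    {e : QS (n + 1)} (i : D ⟶ T M (n + 1)) (r : T M (n + 1) ⟶ D) (hir : i ≫ r = 𝟙 D)
    (hri : r ≫ i = rh φ (n + 1) e) (hg : Good F (n + 1) r) {d : ℕ}
    (b : Module.Basis (Fin d) K (F.V M)) (δ : Fin d → ℚ) (hδ : ∀ i, δ i = 1 ∨ δ i = -1)
    (hb : ∀ i, F.par M (b i) = (δ i : K) • b i)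
    (Λ : (F.V M →ₗ[K] F.V M) →ₗ[K] (F.V (T M (n + 1)) →ₗ[K] F.V (T M (n + 1))))
    (hΛ : ∀ (x : F.V M →ₗ[K] F.V M) (v : Fin (n + 1) → F.V M), Λ x (wd F (n + 1) v) =
        wd F (n + 1) (Function.update v (Fin.last n) (x (v (Fin.last n)))))
    (X : F.V M →ₗ[K] F.V M) (hX : ∀ x, F.par M (X x) = X (F.par M x))
    (h0 : ∀ (g g' : Equiv.Perm (Fin (n + 1))) z,
      F.map (rh φ (n + 1) (e * MonoidAlgebra.single g 1)) (Λ X
        (F.map (rh φ (n + 1) (MonoidAlgebra.single g' 1 * e)) z)) = 0) : X = 0 :=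
  inj_of i r hir hri hg b δ hb Λ (Pool.Agent.Helper18.EN.eder hφ b δ hδ hb n Λ hΛ)
    (Pool.Agent.Helper47.EN.sepw hφ i r hir hri hg b δ hδ hb) X hX h0

end Pool.Agent.Helper85.EN
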